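import Pool.Agent.Helper26.MCE.GoalsB

/-!
Project MCE (MP_d8224a_co): packet POS, facts on positions.
-/

namespace Pool.Agent.Helper90.MCE

open Finset Pool.Agent.Helper87.MC Pool.Agent.Helper26.MCE

theorem down {s : ℕ} {V : Type} {c : ℕ → V → V}
    (h : ∀ i < s, ∀ v v', c (i + 1) v = c (i + 1) v' → c i v = c i v') {v v' : V} :
    ∀ i ≤ s, c i v = c i v' → ∀ j ≤ i, c j v = c j v' := by
  intro i
  induction i with
  | zero =>
    intro _ h0 j hj
    obtain rfl : j = 0 := Nat.le_zero.1 hj
    exact h0
  | succ i ih =>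
    intro hi h1 j hj
    rcases Nat.lt_or_ge j (i + 1) with h2 | h2
    · exact ih (by omega) (h i (by omega) v v' h1) j (by omega)
    · obtain rfl : j = i + 1 := by omega
      exact h1

theorem anti_le {G : Type} [AddCommGroup G] {s : ℕ} {K : ℕ → AddSubgroup G}
    (h : ∀ i < s, K (i + 1) ≤ K i) {i : ℕ} : ∀ j, i ≤ j → j ≤ s → K j ≤ K i := by
  intro j
  induction j with
  | zero =>
    intro h1 _
    obtain rfl : i = 0 := Nat.le_zero.1 h1
    exact le_rfl
  | succ j ih =>
    intro h1 h2
    rcases Nat.lt_or_ge i (j + 1) with h3 | h3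
    · exact (h j (by omega)).trans (ih (by omega) (by omega))
    · obtain rfl : i = j + 1 := by omega
      exact le_rfl

/-- **POS**. -/
theorem goalPOS : G_POS := by
  classical
  intro G _ _ s V _ K c hK hc
  refine ⟨?_, ?_, ?_, ?_⟩
  · intro ω hω i hi v v' hvv
    have hmem : ∀ q : Fin s × V, ω q ∈ K q.1 := by
      intro q
      have h1 := Fintype.mem_piFinset.1 hω q
      exact (mem_filter.1 h1).2
    unfold pos
    rw [← sum_sub_distrib]
    refine AddSubgroup.sum_mem _ fun l _ => ?_
    rcases Nat.lt_or_ge (l : ℕ) i with h1 | h1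
    · rw [down hc i hi hvv (l + 1) (by omega), sub_self]
      exact (K i).zero_mem
    · have h2 : K l ≤ K i := anti_le hK l h1 l.2.le
      exact (K i).sub_mem (h2 (hmem (l, c (l + 1) v))) (h2 (hmem (l, c (l + 1) v')))
  · intro ω l b x v hb
    unfold pos
    refine sum_congr rfl fun l' _ => ?_
    rw [Function.update_of_ne]
    intro h
    obtain ⟨h1, h2⟩ := Prod.mk.inj h
    subst h1
    exact hb h2
  · intro ω l x v
    have h1 : pos c (Function.update ω (l, c (l + 1) v) x) v - pos c ω v =
        x - ω (l, c (l + 1) v) := by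
      unfold pos
      rw [← sum_sub_distrib, sum_eq_single l]
      · rw [Function.update_self]
      · intro l' _ hl
        rw [Function.update_of_ne, sub_self]
        intro h
        exact hl (Prod.mk.inj h).1
      · intro h
        exact absurd (mem_univ l) h
    rw [sub_eq_iff_eq_add] at h1
    rw [h1]
    abel
  · intro v v' h0 hs
    have hex : ∃ j, c j v ≠ c j v' := ⟨s, hs⟩
    have hj := Nat.find_spec hex
    have hmin : ∀ i < Nat.find hex, c i v = c i v' := fun i hi => by
      by_contra hne
      exact Nat.find_min hex hi hne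
    have hle : Nat.find hex ≤ s := Nat.find_min' hex hs
    have hpos : Nat.find hex ≠ 0 := by
      intro h
      rw [h] at hj
      exact hj h0
    generalize Nat.find hex = j at hj hmin hle hpos
    obtain ⟨l, rfl⟩ := Nat.exists_eq_succ_of_ne_zero hpos
    refine ⟨l, by omega, hmin l (by omega), hj, fun i hi => hmin i (by omega), ?_⟩
    intro i hi his heq
    exact hj (down hc i his heq (l + 1) (by omega))

end Pool.Agent.Helper90.MCE
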